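import Pool.Agent.ZPT.Stmts

/-!
# KX (MP_6e1a06_nt): the norm of `ℂ_[p]` on rational numbers
-/

set_option autoImplicit false

namespace Pool.Agent.ZPT.H15

open Pool.Agent.ZPT

/-- KX -/
theorem kx : KXStmt := by
  intro p hp x
  have h1 : algebraMap (PadicAlgCl p) ℂ_[p] (algebraMap ℚ_[p] (PadicAlgCl p) (x : ℚ_[p]))
      = ((x : ℚ) : ℂ_[p]) := by
    rw [map_ratCast, map_ratCast]
  rw [← h1]
  have h2 := PadicComplex.norm_extends p (algebraMap ℚ_[p] (PadicAlgCl p) (x : ℚ_[p]))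
  have h3 := PadicAlgCl.norm_extends p (x : ℚ_[p])
  have h4 : ‖(x : ℚ_[p])‖ = ((padicNorm p x : ℚ) : ℝ) := Padic.eq_padicNorm x
  rw [← h4, ← h3, ← h2]
  rfl

end Pool.Agent.ZPT.H15
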